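import Pool.Agent.Helper16.AZ.Stmts

/-! Module FUR: the mean square of a sum of dilated functions. -/

open Finset Filter MeasureTheory Topology
open scoped ComplexConjugate InnerProductSpace

namespace Pool.Agent.Helper16.AZ

open Pool.Agent.Helper16.MD (MS PB Am RW Rich)
open UnitAddTorus (mFourier)

theorem fur_integrable {r : ℕ} {α : Type} [NormedAddCommGroup α] {F : T r → α}
    (hF : Continuous F) : Integrable F (mm r) :=
  hF.integrable_of_hasCompactSupport (HasCompactSupport.of_compactSpace F)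

theorem fur_fc_sum {r : ℕ} (B : Finset ℕ) (g : ℕ → T r → ℂ) (hg : ∀ p ∈ B, Continuous (g p))
    (Z : Fin r → ℤ) : fc (fun θ => ∑ p ∈ B, g p θ) Z = ∑ p ∈ B, fc (g p) Z := by
  unfold fc
  simp only [Finset.mul_sum]
  refine integral_finsetSum B fun p hp => ?_
  exact fur_integrable (((mFourier (-Z)).continuous).mul (hg p hp))

theorem fur_one {r : ℕ} (F : T r → ℂ) (hF : Continuous F) (h1 : ∀ θ, ‖F θ‖ ≤ 1) :
    ∫ θ, ‖F θ‖ ^ 2 ∂(mm r) ≤ 1 := by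
  have h2 : ∫ θ, ‖F θ‖ ^ 2 ∂(mm r) ≤ ∫ _θ : T r, (1 : ℝ) ∂(mm r) := by
    refine integral_mono (fur_integrable (hF.norm.pow 2)) (integrable_const _) fun θ => ?_
    have := norm_nonneg (F θ)
    have h3 := h1 θ
    show ‖F θ‖ ^ 2 ≤ 1
    nlinarith only [this, h3]
  simpa using h2

theorem fur_mf {r : ℕ} (X : Fin r → ℤ) (x : T r) : ‖mFourier X x‖ ≤ 1 := by
  have h := ContinuousMap.norm_coe_le_norm (mFourier X) x
  rwa [UnitAddTorus.mFourier_norm] at h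

theorem fur_inj {r : ℕ} {p : ℕ} (hp : 1 ≤ p) (S : Finset (Fin r → ℤ))
    (hS : ∀ Z ∈ S, ∀ i, (p : ℤ) ∣ Z i) :
    Set.InjOn (fun (Z : Fin r → ℤ) (i : Fin r) => Z i / (p : ℤ)) (S : Set (Fin r → ℤ)) := by
  intro Z hZ Z' hZ' he
  funext i
  have h1 : Z i / (p : ℤ) = Z' i / (p : ℤ) := congrFun he i
  have h2 := Int.mul_ediv_cancel' (hS Z hZ i)
  have h3 := Int.mul_ediv_cancel' (hS Z' hZ' i)
  rw [← h2, ← h3, h1]

/-- one Fourier coefficient of a dilated function -/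
theorem fur_coef (h2 : ST_FTR) {r : ℕ} (F : T r → ℂ) (x : T r) {p : ℕ} (hp : 1 ≤ p)
    (hF : Continuous F) (Z : Fin r → ℤ) :
    ((∀ i, (p : ℤ) ∣ Z i) → ‖fc (fun θ => F (x + p • θ)) Z‖ ≤ ‖fc F (fun i => Z i / p)‖) ∧
    ((¬ ∀ i, (p : ℤ) ∣ Z i) → fc (fun θ => F (x + p • θ)) Z = 0) := by
  obtain ⟨ha, hb⟩ := h2 r F x p Z hF hp
  refine ⟨fun h => ?_, hb⟩
  rw [ha h, norm_mul]
  have := fur_mf (fun i => Z i / (p : ℤ)) x
  have h3 := norm_nonneg (fc F (fun i => Z i / (p : ℤ)))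
  nlinarith only [this, h3]

theorem st_FUR (h1 : ST_FPV) (h2 : ST_FTR) : ST_FUR := by
  classical
  intro r x B F M n₀ τ hB hF hτ hlow hhigh
  obtain ⟨g, hg⟩ : ∃ g : ℕ → T r → ℂ, g = fun p θ => F p (x + p • θ) := ⟨_, rfl⟩
  have hgp : ∀ p θ, g p θ = F p (x + p • θ) := by intro p θ; rw [hg]
  have hgc : ∀ p ∈ B, Continuous (g p) := by
    intro p hp
    rw [hg]
    exact (hF p hp).1.comp (continuous_const.add (continuous_nsmul p))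
  have hG : Continuous (fun θ => ∑ p ∈ B, g p θ) := continuous_finsetSum B fun p hp => hgc p hp
  have hsum := h1 r _ hG
  have hgoal : ∫ θ, ‖∑ p ∈ B, F p (x + p • θ)‖ ^ 2 ∂(mm r) =
      ∫ θ, ‖∑ p ∈ B, g p θ‖ ^ 2 ∂(mm r) := by rw [hg]
  rw [hgoal]
  -- coefficients of the pieces
  have hcoef : ∀ p ∈ B, ∀ Z : Fin r → ℤ,
      ((∀ i, (p : ℤ) ∣ Z i) → ‖fc (g p) Z‖ ≤ ‖fc (F p) (fun i => Z i / p)‖) ∧
      ((¬ ∀ i, (p : ℤ) ∣ Z i) → fc (g p) Z = 0) := by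
    intro p hp Z
    have := fur_coef h2 (F p) x (hB p hp) (hF p hp).1 Z
    rw [hg]
    exact this
  have hzero : fc (fun θ => ∑ p ∈ B, g p θ) 0 = ∑ p ∈ B, ∫ θ, F p θ ∂(mm r) := by
    rw [fur_fc_sum B g hgc]
    refine Finset.sum_congr rfl fun p hp => ?_
    have h3 := (h2 r (F p) x p 0 (hF p hp).1 (hB p hp)).1 (fun i => dvd_zero _)
    have h4 : (fun i : Fin r => (0 : Fin r → ℤ) i / (p : ℤ)) = 0 := by
      funext i; simp
    rw [h4] at h3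
    have h5 : fc (g p) 0 = fc (fun θ => F p (x + p • θ)) 0 := by rw [hg]
    rw [h5, h3]
    unfold fc
    simp [UnitAddTorus.mFourier_zero]
  -- low and high frequencies
  obtain ⟨Low, hLow⟩ : ∃ Low : ℕ → (Fin r → ℤ) → Prop, Low = fun (p : ℕ) Z =>
    ∃ Y : Fin r → ℤ, Z = (p : ℤ) • Y ∧ ∀ j, |Y j| ≤ (M : ℤ) := ⟨_, rfl⟩
  have hLdiv : ∀ p Z, Low p Z → ∀ i, (p : ℤ) ∣ Z i := by
    intro p Z h i
    rw [hLow] at h
    obtain ⟨Y, rfl, _⟩ := h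
    exact ⟨Y i, by simp⟩
  have hHig : ∀ p ∈ B, ∀ Z, ¬ Low p Z → (∀ i, (p : ℤ) ∣ Z i) →
      ∃ j, (M : ℤ) < |Z j / (p : ℤ)| := by
    intro p hp Z h hd
    by_contra hcon
    push Not at hcon
    refine h ?_
    rw [hLow]
    refine ⟨fun i => Z i / (p : ℤ), ?_, hcon⟩
    funext i
    simp only [Pi.smul_apply, smul_eq_mul]
    exact (Int.mul_ediv_cancel' (hd i)).symm
  have hone : ∀ Z : Fin r → ℤ, Z ≠ 0 → ‖fc (fun θ => ∑ p ∈ B, g p θ) Z‖ ^ 2 ≤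
      2 * ((n₀ : ℝ) * ∑ p ∈ B with Low p Z, ‖fc (g p) Z‖ ^ 2) +
        2 * ((B.card : ℝ) * ∑ p ∈ B with ¬ Low p Z, ‖fc (g p) Z‖ ^ 2) := by
    intro Z hZ
    rw [fur_fc_sum B g hgc]
    have e1 : ‖∑ p ∈ B, fc (g p) Z‖ ≤ ∑ p ∈ B with Low p Z, ‖fc (g p) Z‖ +
        ∑ p ∈ B with ¬ Low p Z, ‖fc (g p) Z‖ := by
      rw [Finset.sum_filter_add_sum_filter_not]
      exact norm_sum_le _ _
    have e2 : (∑ p ∈ B with Low p Z, ‖fc (g p) Z‖) ^ 2 ≤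
        ((B.filter (fun p => Low p Z)).card : ℝ) * ∑ p ∈ B with Low p Z, ‖fc (g p) Z‖ ^ 2 :=
      sq_sum_le_card_mul_sum_sq
    have e3 : (∑ p ∈ B with ¬ Low p Z, ‖fc (g p) Z‖) ^ 2 ≤
        ((B.filter (fun p => ¬ Low p Z)).card : ℝ) *
          ∑ p ∈ B with ¬ Low p Z, ‖fc (g p) Z‖ ^ 2 :=
      sq_sum_le_card_mul_sum_sq
    have c1 : ((B.filter (fun p => Low p Z)).card : ℝ) ≤ n₀ := by
      have := hlow Z hZ (B.filter (fun p => Low p Z)) (Finset.filter_subset _ _) (by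
        intro p hp
        have := (Finset.mem_filter.1 hp).2
        rw [hLow] at this
        exact this)
      exact_mod_cast this
    have c2 : ((B.filter (fun p => ¬ Low p Z)).card : ℝ) ≤ B.card := by
      exact_mod_cast Finset.card_le_card (Finset.filter_subset _ _)
    have n1 : 0 ≤ ∑ p ∈ B with Low p Z, ‖fc (g p) Z‖ ^ 2 :=
      Finset.sum_nonneg fun _ _ => by positivity
    have n2 : 0 ≤ ∑ p ∈ B with ¬ Low p Z, ‖fc (g p) Z‖ ^ 2 :=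
      Finset.sum_nonneg fun _ _ => by positivity
    have m1 := mul_le_mul_of_nonneg_right c1 n1
    have m2 := mul_le_mul_of_nonneg_right c2 n2
    have n3 : 0 ≤ ‖∑ p ∈ B, fc (g p) Z‖ := norm_nonneg _
    obtain ⟨a, ha⟩ : ∃ a, a = ∑ p ∈ B with Low p Z, ‖fc (g p) Z‖ := ⟨_, rfl⟩
    obtain ⟨b, hb⟩ : ∃ b, b = ∑ p ∈ B with ¬ Low p Z, ‖fc (g p) Z‖ := ⟨_, rfl⟩
    rw [← ha] at e1 e2
    rw [← hb] at e1 e3
    have e4 : ‖∑ p ∈ B, fc (g p) Z‖ ^ 2 ≤ (a + b) ^ 2 := pow_le_pow_left₀ n3 e1 2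
    have e5 : (a + b) ^ 2 ≤ 2 * a ^ 2 + 2 * b ^ 2 := by nlinarith only [sq_nonneg (a - b)]
    linarith only [e4, e5, e2, e3, m1, m2]
  -- sums over one function
  have hlo : ∀ p ∈ B, ∀ S : Finset (Fin r → ℤ), ∑ Z ∈ S with Low p Z, ‖fc (g p) Z‖ ^ 2 ≤ 1 := by
    intro p hp S
    have hS : ∀ Z ∈ S.filter (fun Z => Low p Z), ∀ i, (p : ℤ) ∣ Z i := fun Z hZ =>
      hLdiv p Z (Finset.mem_filter.1 hZ).2
    have e1 : ∑ Z ∈ S with Low p Z, ‖fc (g p) Z‖ ^ 2 ≤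
        ∑ Z ∈ S with Low p Z, ‖fc (F p) (fun i => Z i / (p : ℤ))‖ ^ 2 := by
      refine Finset.sum_le_sum fun Z hZ => ?_
      exact pow_le_pow_left₀ (norm_nonneg _) ((hcoef p hp Z).1 (hS Z hZ)) 2
    have e2 : ∑ Z ∈ S with Low p Z, ‖fc (F p) (fun i => Z i / (p : ℤ))‖ ^ 2 =
        ∑ X ∈ (S.filter (fun Z => Low p Z)).image (fun Z i => Z i / (p : ℤ)),
          ‖fc (F p) X‖ ^ 2 := by
      rw [Finset.sum_image]
      exact fur_inj (hB p hp) _ hS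
    have e3 : ∑ X ∈ (S.filter (fun Z => Low p Z)).image (fun Z i => Z i / (p : ℤ)),
          ‖fc (F p) X‖ ^ 2 ≤ ∫ θ, ‖F p θ‖ ^ 2 ∂(mm r) :=
      sum_le_hasSum _ (fun _ _ => by positivity) (h1 r (F p) (hF p hp).1)
    have e4 := fur_one (F p) (hF p hp).1 (hF p hp).2
    linarith only [e1, e2, e3, e4]
  have hhi : ∀ p ∈ B, ∀ S : Finset (Fin r → ℤ), ∑ Z ∈ S with ¬ Low p Z, ‖fc (g p) Z‖ ^ 2 ≤ τ := by
    intro p hp S
    have e0 : ∑ Z ∈ S with ¬ Low p Z, ‖fc (g p) Z‖ ^ 2 =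
        ∑ Z ∈ S with ¬ Low p Z ∧ (∀ i, (p : ℤ) ∣ Z i), ‖fc (g p) Z‖ ^ 2 := by
      symm
      refine Finset.sum_subset ?_ ?_
      · intro Z hZ
        rw [Finset.mem_filter] at hZ ⊢
        exact ⟨hZ.1, hZ.2.1⟩
      · intro Z hZ hZ'
        rw [Finset.mem_filter] at hZ hZ'
        have hd : ¬ ∀ i, (p : ℤ) ∣ Z i := fun hd => hZ' ⟨hZ.1, hZ.2, hd⟩
        rw [(hcoef p hp Z).2 hd]
        simp
    have hS : ∀ Z ∈ S.filter (fun Z => ¬ Low p Z ∧ (∀ i, (p : ℤ) ∣ Z i)),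
        ∀ i, (p : ℤ) ∣ Z i := fun Z hZ => (Finset.mem_filter.1 hZ).2.2
    have e1 : ∑ Z ∈ S with ¬ Low p Z ∧ (∀ i, (p : ℤ) ∣ Z i), ‖fc (g p) Z‖ ^ 2 ≤
        ∑ Z ∈ S with ¬ Low p Z ∧ (∀ i, (p : ℤ) ∣ Z i),
          ‖fc (F p) (fun i => Z i / (p : ℤ))‖ ^ 2 := by
      refine Finset.sum_le_sum fun Z hZ => ?_
      exact pow_le_pow_left₀ (norm_nonneg _) ((hcoef p hp Z).1 (hS Z hZ)) 2
    have e2 : ∑ Z ∈ S with ¬ Low p Z ∧ (∀ i, (p : ℤ) ∣ Z i),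
          ‖fc (F p) (fun i => Z i / (p : ℤ))‖ ^ 2 =
        ∑ X ∈ (S.filter (fun Z => ¬ Low p Z ∧ (∀ i, (p : ℤ) ∣ Z i))).image
          (fun Z i => Z i / (p : ℤ)), ‖fc (F p) X‖ ^ 2 := by
      rw [Finset.sum_image]
      exact fur_inj (hB p hp) _ hS
    have e3 := hhigh p hp ((S.filter (fun Z => ¬ Low p Z ∧ (∀ i, (p : ℤ) ∣ Z i))).image
          (fun Z i => Z i / (p : ℤ))) (by
      intro X hX
      obtain ⟨Z, hZ, rfl⟩ := Finset.mem_image.1 hX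
      obtain ⟨_, hZ2, hZ3⟩ := Finset.mem_filter.1 hZ
      exact hHig p hp Z hZ2 hZ3)
    linarith only [e0, e1, e2, e3]
  have htwo : ∀ S : Finset (Fin r → ℤ), (∀ Z ∈ S, Z ≠ 0) →
      ∑ Z ∈ S, ‖fc (fun θ => ∑ p ∈ B, g p θ) Z‖ ^ 2 ≤
        2 * ((n₀ : ℝ) * B.card + τ * (B.card : ℝ) ^ 2) := by
    intro S hS
    have e1 := Finset.sum_le_sum fun Z hZ => hone Z (hS Z hZ)
    rw [Finset.sum_add_distrib, ← Finset.mul_sum, ← Finset.mul_sum, ← Finset.mul_sum,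
      ← Finset.mul_sum] at e1
    have x1 : ∑ Z ∈ S, ∑ p ∈ B with Low p Z, ‖fc (g p) Z‖ ^ 2 ≤ B.card := by
      simp only [Finset.sum_filter]
      rw [Finset.sum_comm]
      have : ∀ p ∈ B, ∑ Z ∈ S, (if Low p Z then ‖fc (g p) Z‖ ^ 2 else 0) ≤ 1 := by
        intro p hp
        rw [← Finset.sum_filter]
        exact hlo p hp S
      have h3 := Finset.sum_le_sum this
      simpa using h3
    have x2 : ∑ Z ∈ S, ∑ p ∈ B with ¬ Low p Z, ‖fc (g p) Z‖ ^ 2 ≤ B.card * τ := by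
      simp only [Finset.sum_filter]
      rw [Finset.sum_comm]
      have : ∀ p ∈ B, ∑ Z ∈ S, (if ¬ Low p Z then ‖fc (g p) Z‖ ^ 2 else 0) ≤ τ := by
        intro p hp
        rw [← Finset.sum_filter]
        exact hhi p hp S
      have h3 := Finset.sum_le_sum this
      simpa using h3
    have y1 := mul_le_mul_of_nonneg_left x1 (Nat.cast_nonneg n₀ : (0 : ℝ) ≤ n₀)
    have y2 := mul_le_mul_of_nonneg_left x2 (Nat.cast_nonneg B.card : (0 : ℝ) ≤ B.card)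
    refine e1.trans ?_
    have e3 : (B.card : ℝ) * (B.card * τ) = τ * (B.card : ℝ) ^ 2 := by ring
    linarith only [y1, y2, e3]
  refine hasSum_le_of_sum_le hsum fun S => ?_
  rw [← hzero]
  by_cases h0 : (0 : Fin r → ℤ) ∈ S
  · rw [← Finset.add_sum_erase S _ h0]
    have := htwo (S.erase 0) (fun Z hZ => Finset.ne_of_mem_erase hZ)
    linarith only [this]
  · have := htwo S (fun Z hZ e => h0 (e ▸ hZ))
    have h3 : 0 ≤ ‖fc (fun θ => ∑ p ∈ B, g p θ) 0‖ ^ 2 := by positivity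
    linarith only [this, h3]

end Pool.Agent.Helper16.AZ
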